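import Pool.Agent.WF70.InnerA

/-!
# MP_eb9533_al, Q1 for all groups of inner type A and all their pure inner forms

`G` is a connected reductive group over the base field whose adjoint group is a product of groups
`Res_{k i} PGL (n i)`, `i : ι`; a pure inner form has the adjoint group `∏ Res_{k i} PGL (m i) (D i)`,
`n i = m i * d i`, `D i` a central division algebra over `k i` of dimension `d i ^ 2` (this follows
from the existence of `Ψ`) with invariant `r i / d i`. `K` is an algebraic closure; `J` is the set of
the pairs `j` of an index `π j` and an embedding of `k (π j)` into `K` (the algebra structure). `P i` is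
a lift of the `i`-th component of the Langlands parameter, `W i` the Weil group of `k i`, and
`z ↦ z ^ (m i * r i)` is the character of the `i`-th factor `μ_(n i)` of the centre of the simply
connected dual group. The supercuspidal representations correspond to the discrete parameters for which
this character is cuspidal, and `c X` is the coefficient of the orbit of the family `X` in the local
character expansion.
-/

set_option autoImplicit false

namespace Pool.Agent.Results.MP_eb9533_al.InnerTypeA

open Pool.Agent.WF70 TensorProduct

/-- The size of the Jordan blocks of `e i` divides `d i`; the orbit dual to the nilpotent elements `e i`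
of the parameter exists, it bounds the wavefront set, and the wavefront set is equal to it if and only
if the Jordan blocks of each `e i` have size `d i` and a nilpotent orbit all components of which are
regular occurs. -/
theorem result {ι J K : Type} [Finite J] (π : J → ι) (hπ : Function.Surjective π)
    {k D W : ι → Type} [∀ i, Field (k i)] [Field K] [IsAlgClosed K] [∀ j, Algebra (k (π j)) K]
    [∀ i, DivisionRing (D i)] [∀ i, Algebra (k i) (D i)] [∀ i, Group (W i)] {m d r : ι → ℕ}
    (hm : ∀ i, 0 < m i) (hd : ∀ i, 0 < d i)
    (Ψ : ∀ j, K ⊗[k (π j)] Matrix (Fin (m (π j))) (Fin (m (π j))) (D (π j)) ≃ₐ[K]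
      Matrix (Fin (m (π j) * d (π j))) (Fin (m (π j) * d (π j))) K)
    (P : ∀ i, Param (W i) (m i * d i)) (hP : ∀ i, (P i).IsCuspidal (m i * r i)) :
    (∀ i, nilpotencyClass (P i).e ∣ d i) ∧
    ∃ Y : ∀ j, Matrix (Fin (m (π j) * d (π j))) (Fin (m (π j) * d (π j))) K,
      (∀ Z : ∀ j, Matrix (Fin (m (π j) * d (π j))) (Fin (m (π j) * d (π j))) K,
        (∀ j, IsDual (P (π j)).e (Z j)) ↔ Z ∈ orbP Y) ∧
      ∀ c : (∀ i, Matrix (Fin (m i)) (Fin (m i)) (D i)) → ℂ,
        (∀ O ∈ geoWFP π Ψ c, O ⊆ zclP (orbP Y)) ∧
        (geoWFP π Ψ c = {orbP Y} ↔ (∀ i, nilpotencyClass (P i).e = d i) ∧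
          ∃ X, (∀ i, IsNilpotent (X i) ∧ X i ^ (m i - 1) ≠ 0) ∧ c X ≠ 0) :=
  inner_A π hπ hm hd Ψ P hP

end Pool.Agent.Results.MP_eb9533_al.InnerTypeA
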